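import Pool.Agent.Lib.MP_cb3ce3_co.Rate

namespace Pool.Agent.Results.MP_cb3ce3_co.GrowthRate

open Pool.Agent.Lib.MP_cb3ce3_co

/-- The exact exponential growth rate of the maximum number `M(n)` of lattice points in a
stack-sorting simplex: `log M(n) / n` converges to
`inf_{s > 0} (s - ∫_0^1 log (1 - exp (-s / y)) dy)`. -/
theorem result :
    Filter.Tendsto (fun n : ℕ => Real.log (maxLatt n) / n) Filter.atTop
      (nhds (⨅ s : Set.Ioi (0 : ℝ),
        ((s : ℝ) - ∫ y in (0 : ℝ)..1, Real.log (1 - Real.exp (-((s : ℝ) / y)))))) := by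
  have h := rate
  simp only [kappa, I, G, intervalIntegral.integral_neg, ← sub_eq_add_neg] at h
  exact h

end Pool.Agent.Results.MP_cb3ce3_co.GrowthRate
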